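import Pool.Agent.Y948.CQ.C2
import Pool.Agent.Q269.OL.Num

/-!
# The constants of Poonen and Rains for `p = 2`
-/

set_option autoImplicit false
set_option linter.all false

namespace Pool.Agent.Q269.JM

open Finset Filter Topology

theorem eu_fin (x : ℝ) (n : ℕ) : (∏ i ∈ range n, (1 - x ^ (2 * i + 1))) *
    (∏ i ∈ range n, (1 + x ^ (i + 1))) * ∏ i ∈ range n, (1 - x ^ (i + 1)) =
      ∏ i ∈ range (2 * n), (1 - x ^ (i + 1)) := by
  induction n with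
  | zero => simp
  | succ n ih =>
    have e : 2 * (n + 1) = 2 * n + 1 + 1 := by ring
    rw [e, prod_range_succ, prod_range_succ, prod_range_succ, prod_range_succ, prod_range_succ, ← ih]
    ring

theorem pp_low (n : ℕ) : 1 / 4 + (1 / 2 : ℝ) ^ (n + 2) ≤ ∏ i ∈ range (n + 1), (1 - (1 / 2 : ℝ) ^ (i + 1)) := by
  induction n with
  | zero => norm_num
  | succ n ih =>
    rw [prod_range_succ]
    have h1 : (1 / 2 : ℝ) ^ (n + 2) ≤ 1 / 4 := by
      have h2 : (1 / 2 : ℝ) ^ (n + 2) ≤ (1 / 2 : ℝ) ^ 2 :=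
        pow_le_pow_of_le_one (by norm_num) (by norm_num) (by omega)
      norm_num at h2 ⊢
      exact h2
    have h0 : (0 : ℝ) < (1 / 2 : ℝ) ^ (n + 2) := by positivity
    have e : (1 / 2 : ℝ) ^ (n + 1 + 2) = (1 / 2) ^ (n + 2) * (1 / 2) := by ring
    have e2 : (1 / 2 : ℝ) ^ (n + 1 + 1) = (1 / 2) ^ (n + 2) := by ring
    rw [e, e2]
    generalize (1 / 2 : ℝ) ^ (n + 2) = y at *
    nlinarith

theorem pp_tendsto : ∃ P : ℝ, 0 < P ∧
    Tendsto (fun n : ℕ => ∏ i ∈ range n, (1 - (1 / 2 : ℝ) ^ (i + 1))) atTop (𝓝 P) := by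
  have hs : Summable fun i : ℕ => ‖-(1 / 2 : ℝ) ^ (i + 1)‖ := by
    simp only [norm_neg, norm_pow]
    refine (summable_nat_add_iff 1).2 (summable_geometric_of_lt_one (by norm_num) ?_)
    norm_num
  have hm : Multipliable fun i : ℕ => 1 + -(1 / 2 : ℝ) ^ (i + 1) :=
    multipliable_one_add_of_summable hs
  have h1 := hm.hasProd.tendsto_prod_nat
  simp only [← sub_eq_add_neg] at h1
  refine ⟨_, ?_, h1⟩
  have h2 : (1 / 4 : ℝ) ≤ ∏' i : ℕ, (1 - (1 / 2 : ℝ) ^ (i + 1)) := by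
    refine ge_of_tendsto h1 ?_
    filter_upwards [eventually_ge_atTop 1] with n hn
    obtain ⟨m, rfl⟩ : ∃ m, n = m + 1 := ⟨n - 1, by omega⟩
    have := pp_low m
    have h0 : (0 : ℝ) < (1 / 2 : ℝ) ^ (m + 2) := by positivity
    linarith
  linarith

theorem odd_eq : (∏' i : ℕ, (1 - (1 / 2 : ℝ) ^ (2 * i + 1))) = OL.al 2 := by
  obtain ⟨P, hP, h1⟩ := pp_tendsto
  have h2 : Tendsto (fun n : ℕ => ∏ i ∈ range (2 * n), (1 - (1 / 2 : ℝ) ^ (i + 1))) atTop (𝓝 P) :=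
    h1.comp (tendsto_atTop_mono (fun n => (show n ≤ 2 * n by omega)) tendsto_id)
  have h3 := (h2.div h1 hP.ne').mul (OL.al_tendsto (ℓ := 2) le_rfl)
  rw [div_self hP.ne', one_mul] at h3
  have h4 : Tendsto (fun n : ℕ => ∏ i ∈ range n, (1 - (1 / 2 : ℝ) ^ (2 * i + 1))) atTop
      (𝓝 (Pool.Agent.Y703.CQ.c2)) := by
    rw [tendsto_iff_norm_sub_tendsto_zero]
    refine squeeze_zero (fun n => norm_nonneg _) (fun n => ?_)
      (tendsto_pow_atTop_nhds_zero_of_lt_one (r := (1 / 4 : ℝ)) (by norm_num) (by norm_num))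
    rw [Real.norm_eq_abs]
    exact Pool.Agent.Y948.CQ.t_C2.1 n
  refine tendsto_nhds_unique h4 (h3.congr fun n => ?_)
  have e2 : ((2 : ℕ) : ℝ)⁻¹ = 1 / 2 := by norm_num
  rw [Pi.div_apply, ← eu_fin, e2]
  have h5 : ∏ i ∈ range n, (1 - (1 / 2 : ℝ) ^ (i + 1)) ≠ 0 := by
    refine prod_ne_zero_iff.2 fun i _ => ?_
    have : (1 / 2 : ℝ) ^ (i + 1) < 1 := pow_lt_one₀ (by norm_num) (by norm_num) (by omega)
    linarith
  have h6 : ∏ i ∈ range n, (1 + (1 / 2 : ℝ) ^ (i + 1)) ≠ 0 :=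
    prod_ne_zero_iff.2 fun i _ => by positivity
  rw [prod_inv_distrib]
  field_simp

/-- the infinite product of Poonen and Rains -/
theorem pr_eq : (∏' j : ℕ, (1 + (1 / 2 : ℝ) ^ j)⁻¹) = 1 / 2 * OL.al 2 := by
  have hs : Summable fun i : ℕ => ‖(1 + (1 / 2 : ℝ) ^ i)⁻¹ - 1‖ := by
    refine Summable.of_nonneg_of_le (fun i => norm_nonneg _) (fun i => ?_)
      (summable_geometric_of_lt_one (r := (1 / 2 : ℝ)) (by norm_num) (by norm_num))
    have h3 : (0 : ℝ) < (1 / 2 : ℝ) ^ i := by positivity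
    have h5 : (1 + (1 / 2 : ℝ) ^ i)⁻¹ - 1 = -((1 / 2 : ℝ) ^ i / (1 + (1 / 2 : ℝ) ^ i)) := by
      field_simp
      ring
    rw [h5, norm_neg, Real.norm_of_nonneg (by positivity)]
    exact div_le_self h3.le (by linarith)
  have hm : Multipliable fun i : ℕ => 1 + ((1 + (1 / 2 : ℝ) ^ i)⁻¹ - 1) :=
    multipliable_one_add_of_summable hs
  have h1 := hm.hasProd.tendsto_prod_nat
  simp only [add_sub_cancel] at h1
  have h2 := h1.comp (tendsto_add_atTop_nat 1)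
  refine tendsto_nhds_unique h2 (((OL.al_tendsto (ℓ := 2) le_rfl).const_mul (1 / 2)).congr fun n => ?_)
  have e2 : ((2 : ℕ) : ℝ)⁻¹ = 1 / 2 := by norm_num
  rw [Function.comp_apply, prod_range_succ', e2, pow_zero, mul_comm]
  norm_num

end Pool.Agent.Q269.JM
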