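import Pool.Agent.Q269.JM.Pa

/-!
# The moments over the whole class
-/

set_option autoImplicit false
set_option linter.all false

open scoped Classical

namespace Pool.Agent.Q269.JM

open Finset Polynomial Filter Module
open Pool.Agent.H341R2.Sharp
open Pool.Agent.Y164.PS Q283.FS
open Pool.Agent.Y697.PQ (ij)

theorem ij_bd (j s : ℕ) : 0 ≤ ij j (4 ^ s) ∧ ij j (4 ^ s) ≤ ((4 : ℝ) ^ s) ^ j := by
  have e4 : (4 : ℝ) ^ s = 2 ^ (2 * s) := by
    rw [pow_mul]
    norm_num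
  rcases lt_or_ge (2 * s) j with h | h
  · have : ij j (4 ^ s) = 0 := by
      unfold ij
      exact Finset.prod_eq_zero (Finset.mem_range.2 h) (by rw [e4, sub_self])
    rw [this]
    exact ⟨le_rfl, by positivity⟩
  · have h1 : ∀ i ∈ range j, (0 : ℝ) ≤ 4 ^ s - 2 ^ i ∧ (4 : ℝ) ^ s - 2 ^ i ≤ 4 ^ s := by
      intro i hi
      rw [mem_range] at hi
      have h2 : (2 : ℝ) ^ i ≤ 2 ^ (2 * s) := pow_le_pow_right₀ (by norm_num) (by omega)
      have h3 : (0 : ℝ) < 2 ^ i := by positivity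
      rw [e4]
      exact ⟨by linarith, by linarith⟩
    unfold ij
    refine ⟨prod_nonneg fun i hi => (h1 i hi).1, ?_⟩
    calc _ ≤ ∏ i ∈ range j, (4 : ℝ) ^ s :=
          prod_le_prod (fun i hi => (h1 i hi).1) fun i hi => (h1 i hi).2
      _ = _ := by rw [prod_const, card_range]

variable {k : Type} [Field k] [Fintype k] [DecidableEq k]
variable {a b : k[X]} {N : ℕ} (H : Hyp a b N)
variable {M : ℕ} {F : Fin M → Finset k[X]} (hF : Msk a b F)

theorem sf_le (A : Finset k[X]) :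
    ((4 ^ sf H A : ℕ) : ℝ) ≤ 4 ^ A.card * 2 ^ Fintype.card (Tau a b) := by
  have h0 : Nat.card (V A (Tau a b)) = 4 ^ A.card * 2 ^ Fintype.card (Tau a b) := by
    show Nat.card ((A → W) × (Tau a b → F2)) = _
    have h4 : Nat.card W = 4 := by
      rw [Nat.card_eq_fintype_card, Fintype.card_prod, ZMod.card]
    rw [Nat.card_prod, Nat.card_fun, Nat.card_fun, h4, Nat.card_zmod, Nat.card_eq_fintype_card,
      Nat.card_eq_fintype_card, Fintype.card_coe]
  have h1 : kp (datum H) (QQ a b) A ≤ 4 ^ A.card * 2 ^ Fintype.card (Tau a b) := by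
    rw [← h0]
    unfold kp kc
    exact Nat.card_le_card_of_injective Subtype.val Subtype.val_injective
  have h2 : 4 ^ sf H A ≤ 4 ^ A.card * 2 ^ Fintype.card (Tau a b) := by
    unfold sf
    rcases Nat.eq_zero_or_pos (kp (datum H) (QQ a b) A) with h | h
    · rw [h, Nat.log_zero_right, pow_zero]
      exact Nat.one_le_iff_ne_zero.2 (by positivity)
    · exact (Nat.pow_log_le_self 4 h.ne').trans h1
  exact_mod_cast h2

/-- the bound of the order of the kernel -/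
theorem rr_le (κ : Fin M) (D : k[X]) : (4 : ℝ) ^ rr H (F κ) D ≤
    (4 ^ (PM F).card * 2 ^ Fintype.card (Tau a b)) * 4 ^ (pf D).card := by
  have h1 := sf_le H (symmDiff (pf D) (F κ))
  have h2 : (symmDiff (pf D) (F κ)).card ≤ (pf D).card + (PM F).card := by
    have h3 : symmDiff (pf D) (F κ) ⊆ pf D ∪ PM F := by
      intro P hP
      rw [mem_symmDiff] at hP
      rw [mem_union]
      rcases hP with h | h
      · exact Or.inl h.1
      · exact Or.inr (PM_mem.2 ⟨κ, h.1⟩)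
    exact (card_le_card h3).trans (card_union_le _ _)
  push_cast at h1
  calc (4 : ℝ) ^ rr H (F κ) D ≤ 4 ^ (symmDiff (pf D) (F κ)).card * 2 ^ Fintype.card (Tau a b) := h1
    _ ≤ 4 ^ ((pf D).card + (PM F).card) * 2 ^ Fintype.card (Tau a b) :=
        mul_le_mul_of_nonneg_right (pow_le_pow_right₀ (by norm_num) h2) (by positivity)
    _ = _ := by rw [pow_add]; ring

theorem mo_bd (jj : Fin M → ℕ) (D : k[X]) : 0 ≤ ∏ κ, ij (jj κ) (4 ^ rr H (F κ) D) ∧
    ∏ κ, ij (jj κ) (4 ^ rr H (F κ) D) ≤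
      (4 ^ (PM F).card * 2 ^ Fintype.card (Tau a b)) ^ (∑ κ, jj κ) *
        (((4 ^ (∑ κ, jj κ) : ℕ)) : ℝ) ^ (pf D).card := by
  refine ⟨prod_nonneg fun κ _ => (ij_bd _ _).1, ?_⟩
  calc ∏ κ, ij (jj κ) (4 ^ rr H (F κ) D) ≤ ∏ κ, ((4 ^ (PM F).card * 2 ^ Fintype.card (Tau a b)) *
      4 ^ (pf D).card : ℝ) ^ jj κ := by
        refine prod_le_prod (fun κ _ => (ij_bd _ _).1) fun κ _ => (ij_bd _ _).2.trans ?_
        exact pow_le_pow_left₀ (by positivity) (rr_le H κ D) _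
    _ = _ := by
        rw [prod_pow_eq_pow_sum, mul_pow]
        push_cast
        rw [← pow_mul, ← pow_mul, mul_comm (pf D).card]

include H hF in
/-- the moments over the whole class -/
theorem mom_all (hq : 4 ≤ Fintype.card k)
    (h2t : ∀ u : W, u ≠ 0 → ∃ s, om u ((datum H).t s) ≠ 0) (jj : Fin M → ℕ) (ε : ℝ) (hε : 0 < ε) :
    ∀ᶠ n : ℕ in atTop, (n : F2) + (N : F2) = 1 →
      |(∑ D ∈ Cn a b n, ∏ κ, ij (jj κ) (4 ^ rr H (F κ) D)) * 2 ^ Fintype.card (Tau a b) -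
        (∏ κ, (2 : ℝ) ^ (jj κ * (jj κ + 1) / 2)) * (((Sf k n).filter (nb a b)).card : ℝ)| ≤
        ε * (Fintype.card k : ℝ) ^ n := by
  obtain ⟨z0, hz0⟩ : ∃ z0 : ℕ, ∀ κ, ∀ P ∈ F κ, P.natDegree < z0 := by
    refine ⟨dM F + 1, fun κ P hP => ?_⟩
    have : P.natDegree ≤ dM F := by
      rw [dM]
      exact single_le_sum (f := fun P : k[X] => P.natDegree) (fun _ _ => Nat.zero_le _)
        (PM_mem.2 ⟨κ, hP⟩)
    omega
  obtain ⟨J, hJ⟩ : ∃ J, J = ∑ κ, jj κ := ⟨_, rfl⟩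
  obtain ⟨B, hB⟩ : ∃ B : ℝ, B = (4 ^ (PM F).card * 2 ^ Fintype.card (Tau a b)) ^ J := ⟨_, rfl⟩
  obtain ⟨P, hP⟩ : ∃ P : ℝ, P = ∏ κ, (2 : ℝ) ^ (jj κ * (jj κ + 1) / 2) := ⟨_, rfl⟩
  obtain ⟨T, hT⟩ : ∃ T : ℝ, T = 2 ^ Fintype.card (Tau a b) := ⟨_, rfl⟩
  have hB0 : 0 < B := by rw [hB]; positivity
  have hP0 : 0 < P := by rw [hP]; exact prod_pos fun κ _ => by positivity
  have hT0 : 0 < T := by rw [hT]; positivity
  have hδ : 0 < ε / 3 / (B * T + P) := by positivity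
  filter_upwards [params (a := a) (b := b) H.hk F jj (4 ^ J) (Nat.one_le_pow _ _ (by norm_num)) z0
    (show 0 < ε / 3 by positivity) hδ, eventually_ge_atTop 1] with n hn hn1 hpar
  obtain ⟨t0, m1, s, z, hz2, hzz, hη, hE, hsum⟩ := hn
  have h6 := lv_typ H hF hq h2t hpar hz2
    (fun κ P hP => lt_of_lt_of_le (hz0 κ P hP) hzz) jj hη (ε := ε / 3) hE
  have e1 : ((CS jj).card : ℝ) = P := by
    rw [card_CS, hP]
    push_cast
    refine prod_congr rfl fun κ _ => ?_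
    congr 1
    rw [Nat.choose_two_right, Nat.add_sub_cancel, mul_comm]
  rw [e1, ← hT] at h6
  rw [← hP, ← hT]
  -- the splitting
  have hsplit : ∀ (p : k[X] → Prop) (g : k[X] → ℝ), ∑ D ∈ (Sf k n).filter p, g D =
      ∑ D ∈ (Sf k n).filter (fun D => typ t0 m1 s z D ∧ p D), g D +
      ∑ D ∈ (Sf k n).filter (fun D => ¬ typ t0 m1 s z D ∧ p D), g D := by
    intro p g
    rw [← sum_filter_add_sum_filter_not ((Sf k n).filter p) (fun D => typ t0 m1 s z D),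
      filter_filter, filter_filter]
    congr 1
    · exact sum_congr (filter_congr fun D _ => and_comm) fun _ _ => rfl
    · exact sum_congr (filter_congr fun D _ => and_comm) fun _ _ => rfl
  obtain ⟨Q, hQ⟩ : ∃ Q : ℝ, Q = (Fintype.card k : ℝ) ^ n := ⟨_, rfl⟩
  have hQ0 : 0 ≤ Q := by rw [hQ]; positivity
  rw [← hQ] at hsum ⊢
  have hone : ∀ D : k[X], (1 : ℝ) ≤ ((4 ^ J : ℕ) : ℝ) ^ (pf D).card := fun D => by
    apply one_le_pow₀
    exact_mod_cast Nat.one_le_pow _ _ (by norm_num)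
  -- the tail
  have t1 : ∑ D ∈ (Sf k n).filter (fun D => ¬ typ t0 m1 s z D ∧ P1 a b D),
      ∏ κ, ij (jj κ) (4 ^ rr H (F κ) D) ≤ B * (ε / 3 / (B * T + P) * Q) := by
    refine le_trans ?_ (mul_le_mul_of_nonneg_left hsum hB0.le)
    rw [mul_sum]
    refine (sum_le_sum fun D _ => (mo_bd H jj D).2).trans ?_
    rw [← hJ, ← hB]
    refine sum_le_sum_of_subset_of_nonneg (fun D hD => ?_) fun D _ _ => by positivity
    rw [mem_filter] at hD ⊢
    exact ⟨hD.1, hD.2.1⟩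
  have t0' : 0 ≤ ∑ D ∈ (Sf k n).filter (fun D => ¬ typ t0 m1 s z D ∧ P1 a b D),
      ∏ κ, ij (jj κ) (4 ^ rr H (F κ) D) := sum_nonneg fun D _ => (mo_bd H jj D).1
  have t2 : ∑ D ∈ (Sf k n).filter (fun D => ¬ typ t0 m1 s z D ∧ nb a b D), (1 : ℝ) ≤
      ε / 3 / (B * T + P) * Q := by
    refine le_trans ?_ hsum
    refine (sum_le_sum fun D _ => hone D).trans ?_
    refine sum_le_sum_of_subset_of_nonneg (fun D hD => ?_) fun D _ _ => by positivity
    rw [mem_filter] at hD ⊢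
    exact ⟨hD.1, hD.2.1⟩
  have t3 : 0 ≤ ∑ D ∈ (Sf k n).filter (fun D => ¬ typ t0 m1 s z D ∧ nb a b D), (1 : ℝ) :=
    sum_nonneg fun D _ => zero_le_one
  have t4 : ∑ D ∈ (Sf k n).filter (fun D => typ t0 m1 s z D ∧ nb a b D), (1 : ℝ) ≤ Q := by
    rw [sum_const, nsmul_eq_mul, mul_one, hQ]
    have h7 : ((Sf k n).filter (fun D => typ t0 m1 s z D ∧ nb a b D)).card ≤ (Mon k n).card :=
      card_le_card ((filter_subset _ _).trans (filter_subset _ _))
    have h8 : (Mon k n).card = Fintype.card k ^ n := card_Mon H.hk n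
    rw [h8] at h7
    exact_mod_cast h7
  have s1 := hsplit (P1 a b) fun D => ∏ κ, ij (jj κ) (4 ^ rr H (F κ) D)
  have s2 := hsplit (nb a b) fun _ => 1
  have s3 : (((Sf k n).filter (nb a b)).card : ℝ) = ∑ D ∈ (Sf k n).filter (nb a b), (1 : ℝ) := by
    rw [sum_const, nsmul_eq_mul, mul_one]
  have s4 : (((Sf k n).filter (fun D => typ t0 m1 s z D ∧ nb a b D)).card : ℝ) =
      ∑ D ∈ (Sf k n).filter (fun D => typ t0 m1 s z D ∧ nb a b D), (1 : ℝ) := by
    rw [sum_const, nsmul_eq_mul, mul_one]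
  have h6' : |(∑ D ∈ (Sf k n).filter (fun D => typ t0 m1 s z D ∧ P1 a b D),
      ∏ κ, ij (jj κ) (4 ^ rr H (F κ) D)) * T -
      P * (((Sf k n).filter fun D => typ t0 m1 s z D ∧ nb a b D).card : ℝ)| ≤
      ε / 3 * (((Sf k n).filter fun D => typ t0 m1 s z D ∧ nb a b D).card : ℝ) := h6
  rw [s4] at h6'
  show |(∑ D ∈ (Sf k n).filter (P1 a b), ∏ κ, ij (jj κ) (4 ^ rr H (F κ) D)) * T -
    P * (((Sf k n).filter (nb a b)).card : ℝ)| ≤ ε * Q
  rw [s3, s1, s2]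
  clear s1 s2 s3 s4 h6 hsplit hsum hone
  generalize (∑ D ∈ (Sf k n).filter (fun D => typ t0 m1 s z D ∧ P1 a b D),
      ∏ κ, ij (jj κ) (4 ^ rr H (F κ) D)) = x1 at *
  generalize (∑ D ∈ (Sf k n).filter (fun D => ¬ typ t0 m1 s z D ∧ P1 a b D),
      ∏ κ, ij (jj κ) (4 ^ rr H (F κ) D)) = x2 at *
  generalize (∑ D ∈ (Sf k n).filter (fun D => typ t0 m1 s z D ∧ nb a b D), (1 : ℝ)) = y1 at *
  generalize (∑ D ∈ (Sf k n).filter (fun D => ¬ typ t0 m1 s z D ∧ nb a b D), (1 : ℝ)) = y2 at *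
  have hsm : (B * T + P) * (ε / 3 / (B * T + P) * Q) = ε / 3 * Q := by
    field_simp
  obtain ⟨v, hv⟩ : ∃ v : ℝ, v = ε / 3 / (B * T + P) * Q := ⟨_, rfl⟩
  rw [← hv] at t1 t2 hsm
  have u1 : x2 * T ≤ B * v * T := mul_le_mul_of_nonneg_right t1 hT0.le
  have u2 : 0 ≤ x2 * T := mul_nonneg t0' hT0.le
  have u3 : P * y2 ≤ P * v := mul_le_mul_of_nonneg_left t2 hP0.le
  have u4 : 0 ≤ P * y2 := mul_nonneg hP0.le t3
  have u5 : ε / 3 * y1 ≤ ε / 3 * Q := mul_le_mul_of_nonneg_left t4 (by positivity)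
  have u6 : B * v * T + P * v = ε / 3 * Q := by rw [← hsm]; ring
  have u7 : 0 ≤ ε / 3 * Q := by positivity
  have u8 : 0 ≤ B * v * T := u2.trans u1
  have u9 : 0 ≤ P * v := u4.trans u3
  obtain ⟨h7, h8⟩ := abs_le.1 h6'
  rw [abs_le]
  constructor
  · have : (x1 + x2) * T - P * (y1 + y2) = (x1 * T - P * y1) + x2 * T - P * y2 := by ring
    rw [this]
    linarith
  · have : (x1 + x2) * T - P * (y1 + y2) = (x1 * T - P * y1) + x2 * T - P * y2 := by ring
    rw [this]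
    linarith

include H hF in
/-- the moments over the whole class converge -/
theorem mts_Cn (hq : 4 ≤ Fintype.card k)
    (h2t : ∀ u : W, u ≠ 0 → ∃ s, om u ((datum H).t s) ≠ 0) {e : ℕ} (he : (e : F2) + (N : F2) = 1) :
    Mts atTop (fun X : ℕ => Cn a b (2 * X + e)) (fun κ D => rr H (F κ) D) := by
  have hpar : ∀ X : ℕ, ((2 * X + e : ℕ) : F2) + (N : F2) = 1 := by
    intro X
    have h2 : (2 : F2) = 0 := by decide
    push_cast
    rw [h2, zero_mul, zero_add]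
    exact he
  have htop : Tendsto (fun X : ℕ => 2 * X + e) atTop atTop :=
    tendsto_atTop_mono (fun X => (show X ≤ 2 * X + e by omega)) tendsto_id
  obtain ⟨c, hc, hc'⟩ := nb_lower H hq
  have hq0 : (0 : ℝ) < Fintype.card k := by
    have : 0 < Fintype.card k := by omega
    exact_mod_cast this
  have hB : ∀ᶠ X : ℕ in atTop, (0 : ℝ) < (((Sf k (2 * X + e)).filter (nb a b)).card : ℝ) := by
    filter_upwards [htop.eventually hc'] with X hX
    exact lt_of_lt_of_le (by positivity) hX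
  have key : ∀ jj : Fin M → ℕ, Tendsto (fun X : ℕ => ((∑ D ∈ Cn a b (2 * X + e),
      ∏ κ, ij (jj κ) (4 ^ rr H (F κ) D)) * 2 ^ Fintype.card (Tau a b)) /
        (((Sf k (2 * X + e)).filter (nb a b)).card : ℝ))
      atTop (nhds (∏ κ, (2 : ℝ) ^ (jj κ * (jj κ + 1) / 2))) := by
    intro jj
    refine tendsto_ratio hB fun ε hε => ?_
    filter_upwards [htop.eventually (mom_all H hF hq h2t jj (ε * c) (by positivity)),
      htop.eventually hc'] with X hX hX'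
    refine (hX (hpar X)).trans ?_
    calc ε * c * (Fintype.card k : ℝ) ^ (2 * X + e) = ε * (c * (Fintype.card k : ℝ) ^ (2 * X + e)) := by
          ring
      _ ≤ _ := mul_le_mul_of_nonneg_left hX' hε.le
  intro jj
  have h0 := key fun _ => 0
  have h1 := (key jj).div h0 (by simp)
  have e1 : (∏ κ : Fin M, (2 : ℝ) ^ (jj κ * (jj κ + 1) / 2)) /
      (∏ κ : Fin M, (2 : ℝ) ^ (0 * (0 + 1) / 2)) = ∏ κ : Fin M, (2 : ℝ) ^ (jj κ * (jj κ + 1) / 2) := by
    simp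
  rw [e1] at h1
  refine h1.congr' ?_
  filter_upwards [hB] with X hX
  have e2 : ∑ D ∈ Cn a b (2 * X + e), ∏ κ : Fin M, ij 0 (4 ^ rr H (F κ) D) =
      ((Cn a b (2 * X + e)).card : ℝ) := by
    simp [ij]
  rw [Pi.div_apply, e2]
  have ht : (2 : ℝ) ^ Fintype.card (Tau a b) ≠ 0 := by positivity
  rw [div_div_div_cancel_right₀ hX.ne', mul_div_mul_right _ _ ht]

end Pool.Agent.Q269.JM
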