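import Pool.Agent.Q283.FS.Sq
import Pool.Agent.Q269.JM.Mn

/-!
# The means of the functions of exponential growth
-/

set_option autoImplicit false
set_option linter.all false

open scoped Classical

namespace Pool.Agent.Q269.JM

open Finset Filter Q283.FS
open Pool.Agent.Y697.PQ (ij)
open Pool.Agent.Q269.AV (cg pow_cg sum_cg)

theorem pow_ij (n : ℕ) (y : ℝ) : y ^ n = ∑ j ∈ range (n + 1), cg 2 n j * ij j y := pow_cg 2 y n

theorem Pl_pow (n : ℕ) : Pl fun y => y ^ n := ⟨n + 1, cg 2 n, pow_ij n⟩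

theorem Ex_pow (n : ℕ) : Ex (fun y => y ^ n) = ∏ i ∈ range n, (1 + 2 ^ (i + 1)) := by
  rw [Ex_eq (pow_ij n)]
  have h1 := sum_cg (x := 2) (κ := 2) (a := fun j => (2 : ℝ) ^ (j * (j + 1) / 2)) (by norm_num)
    (fun j => by
      have h2 : (j + 1) * (j + 1 + 1) / 2 = j * (j + 1) / 2 + (j + 1) := by
        have : (j + 1) * (j + 1 + 1) = j * (j + 1) + 2 * (j + 1) := by ring
        rw [this, Nat.add_mul_div_left _ _ (by norm_num)]
      show (2 : ℝ) ^ ((j + 1) * (j + 1 + 1) / 2) = 2 * 2 ^ j * 2 ^ (j * (j + 1) / 2)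
      rw [h2, pow_add, pow_succ]
      ring) n
  rw [h1]
  refine prod_congr rfl fun i _ => ?_
  rw [pow_succ]
  ring

variable {ι α : Type} {l : Filter ι} {S : ι → Finset α} {M : ℕ} {ρ : Fin M → α → ℕ}

theorem pw_le {r : Fin M → ℕ} {L : ℕ} (h : ∃ i, L ≤ r i) : (4 : ℝ) ^ L ≤ ∏ i, (4 : ℝ) ^ r i := by
  obtain ⟨i, hi⟩ := h
  rw [prod_pow_eq_pow_sum]
  refine pow_le_pow_right₀ (by norm_num) (hi.trans ?_)
  exact single_le_sum (f := fun i => r i) (fun _ _ => Nat.zero_le _) (mem_univ i)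

/-- the means of the functions of exponential growth -/
theorem mean_f (h : Mts l S ρ) {f : (Fin M → ℕ) → ℝ} {C0 : ℝ} {c : ℕ}
    (hf : ∀ r, |f r| ≤ C0 * ∏ i, ((4 : ℝ) ^ r i) ^ c) :
    Summable (fun r : Fin M → ℕ => f r * ∏ i, lw (r i)) ∧
    Tendsto (fun X => (∑ a ∈ S X, f (fun i => ρ i a)) / ((S X).card : ℝ)) l
      (nhds (∑' r : Fin M → ℕ, f r * ∏ i, lw (r i))) := by
  have hC0 : 0 ≤ C0 := by
    have h1 := (abs_nonneg _).trans (hf 0)
    simpa using h1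
  have hlw : ∀ r : Fin M → ℕ, 0 ≤ ∏ i, lw (r i) := fun r => prod_nonneg fun i _ => (lw_pos _).le
  have hsum : Summable (fun r : Fin M → ℕ => f r * ∏ i, lw (r i)) := by
    have h1 := Q283.T3B.hasSum_pi (M := M) (fun _ s => lw s * (4 ^ s) ^ c) (fun _ => Ex fun x => x ^ c)
      (fun _ r => mul_nonneg (lw_pos r).le (by positivity)) (fun _ => (Pl_pow c).hasSum)
    refine Summable.of_norm_bounded (h1.summable.mul_left C0) fun r => ?_
    rw [Real.norm_eq_abs, abs_mul, abs_of_nonneg (hlw r)]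
    calc |f r| * ∏ i, lw (r i) ≤ (C0 * ∏ i, ((4 : ℝ) ^ r i) ^ c) * ∏ i, lw (r i) :=
          mul_le_mul_of_nonneg_right (hf r) (hlw r)
      _ = _ := by rw [prod_mul_distrib]; ring
  refine ⟨hsum, ?_⟩
  obtain ⟨E, hE⟩ : ∃ E : ℝ, E = ∏ i : Fin M, Ex (fun x => x ^ (c + 1)) := ⟨_, rfl⟩
  have hE0 : 0 ≤ E := by
    rw [hE]
    refine prod_nonneg fun i _ => ?_
    rw [Ex_pow]
    exact prod_nonneg fun i _ => by positivity
  have hmom : Tendsto (fun X => (∑ a ∈ S X, ∏ i, ((4 : ℝ) ^ ρ i a) ^ (c + 1)) / ((S X).card : ℝ)) l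
      (nhds E) := by
    rw [hE]
    exact mts_Pl h (F := fun _ x => x ^ (c + 1)) fun _ => Pl_pow _
  rw [Metric.tendsto_nhds]
  intro ε hε
  -- the box
  have hb1 : Tendsto (fun L : ℕ => ∑ r ∈ Fintype.piFinset (fun _ : Fin M => range L),
      f r * ∏ i, lw (r i)) atTop (nhds (∑' r : Fin M → ℕ, f r * ∏ i, lw (r i))) := by
    refine hsum.hasSum.comp (tendsto_atTop_finset_of_monotone (fun L L' hL => ?_) fun r => ?_)
    · exact Fintype.piFinset_subset _ _ fun _ => range_mono hL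
    · refine ⟨∑ i, r i + 1, Fintype.mem_piFinset.2 fun i => mem_range.2 ?_⟩
      have := single_le_sum (f := fun i => r i) (fun _ _ => Nat.zero_le _) (mem_univ i)
      omega
  have hb2 : Tendsto (fun L : ℕ => C0 * (E + 1) * (1 / 4 : ℝ) ^ L) atTop (nhds (C0 * (E + 1) * 0)) :=
    (tendsto_pow_atTop_nhds_zero_of_lt_one (by norm_num) (by norm_num)).const_mul _
  rw [mul_zero] at hb2
  obtain ⟨L, hL1, hL2⟩ := ((Metric.tendsto_nhds.1 hb1 (ε / 4) (by positivity)).and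
    (hb2.eventually_le_const (show (0 : ℝ) < ε / 4 by positivity))).exists
  obtain ⟨Bx, hBx⟩ : ∃ Bx, Bx = Fintype.piFinset (fun _ : Fin M => range L) := ⟨_, rfl⟩
  rw [← hBx] at hL1
  have hfin : Tendsto (fun X => ∑ r ∈ Bx, f r * ((((S X).filter fun a => ∀ i, ρ i a = r i).card : ℝ) /
      ((S X).card : ℝ))) l (nhds (∑ r ∈ Bx, f r * ∏ i, lw (r i))) :=
    tendsto_finsetSum _ fun r _ => (lim_law h r).const_mul _
  filter_upwards [Metric.tendsto_nhds.1 hfin (ε / 4) (by positivity),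
    hmom.eventually_lt_const (show E < E + 1 by linarith), mts_ne h] with X g1 g2 hne
  have hpos : (0 : ℝ) < ((S X).card : ℝ) := by exact_mod_cast card_pos.2 hne
  have e1 : ∑ r ∈ Bx, f r * ((((S X).filter fun a => ∀ i, ρ i a = r i).card : ℝ) /
      ((S X).card : ℝ)) =
      (∑ a ∈ S X, if (fun i => ρ i a) ∈ Bx then f (fun i => ρ i a) else 0) / ((S X).card : ℝ) := by
    rw [sum_div]
    have e2 : ∀ r ∈ Bx, f r * ((((S X).filter fun a => ∀ i, ρ i a = r i).card : ℝ) /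
      ((S X).card : ℝ)) = ∑ a ∈ S X, (if (fun i => ρ i a) = r then f r / ((S X).card : ℝ) else 0) := by
      intro r _
      rw [← sum_boole, mul_div_assoc', mul_sum, sum_div]
      refine sum_congr rfl fun a _ => ?_
      by_cases h1 : ∀ i, ρ i a = r i
      · rw [if_pos h1, if_pos (funext h1), mul_one]
      · rw [if_neg h1, if_neg (fun h2 => h1 fun i => congrFun h2 i), mul_zero, zero_div]
    rw [sum_congr rfl e2, sum_comm]
    refine sum_congr rfl fun a _ => ?_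
    rw [sum_ite_eq Bx]
    by_cases h1 : (fun i => ρ i a) ∈ Bx
    · rw [if_pos h1, if_pos h1]
    · rw [if_neg h1, if_neg h1, zero_div]
  have e3 : |(∑ a ∈ S X, f (fun i => ρ i a)) / ((S X).card : ℝ) -
      (∑ a ∈ S X, if (fun i => ρ i a) ∈ Bx then f (fun i => ρ i a) else 0) / ((S X).card : ℝ)| ≤
      ε / 4 := by
    refine le_trans ?_ hL2
    rw [← sub_div, ← sum_sub_distrib, abs_div, abs_of_pos hpos, div_le_iff₀ hpos]
    have e4 : ∀ a ∈ S X, |f (fun i => ρ i a) - (if (fun i => ρ i a) ∈ Bx then f (fun i => ρ i a)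
        else 0)| ≤ C0 * (1 / 4 : ℝ) ^ L * ∏ i, ((4 : ℝ) ^ ρ i a) ^ (c + 1) := by
      intro a _
      by_cases h1 : (fun i => ρ i a) ∈ Bx
      · rw [if_pos h1, sub_self, abs_zero]
        positivity
      · rw [if_neg h1, sub_zero]
        have h2 : ∃ i, L ≤ ρ i a := by
          by_contra h3
          push Not at h3
          apply h1
          rw [hBx]
          exact Fintype.mem_piFinset.2 fun i => mem_range.2 (h3 i)
        have h3 := pw_le (r := fun i => ρ i a) h2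
        have h4 : (1 : ℝ) ≤ (1 / 4) ^ L * ∏ i, (4 : ℝ) ^ ρ i a := by
          have h5 : (1 / 4 : ℝ) ^ L * 4 ^ L = 1 := by
            rw [← mul_pow]
            norm_num
          calc (1 : ℝ) = (1 / 4) ^ L * 4 ^ L := h5.symm
            _ ≤ (1 / 4) ^ L * ∏ i, (4 : ℝ) ^ ρ i a := mul_le_mul_of_nonneg_left h3 (by positivity)
        have h5 : ∏ i, ((4 : ℝ) ^ ρ i a) ^ (c + 1) = (∏ i, ((4 : ℝ) ^ ρ i a) ^ c) *
            ∏ i, (4 : ℝ) ^ ρ i a := by
          rw [← prod_mul_distrib]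
          exact prod_congr rfl fun i _ => pow_succ _ _
        calc |f (fun i => ρ i a)| ≤ C0 * ∏ i, ((4 : ℝ) ^ ρ i a) ^ c := hf _
          _ = (C0 * ∏ i, ((4 : ℝ) ^ ρ i a) ^ c) * 1 := (mul_one _).symm
          _ ≤ (C0 * ∏ i, ((4 : ℝ) ^ ρ i a) ^ c) * ((1 / 4) ^ L * ∏ i, (4 : ℝ) ^ ρ i a) :=
              mul_le_mul_of_nonneg_left h4 (mul_nonneg hC0 (by positivity))
          _ = _ := by rw [h5]; ring
    refine (abs_sum_le_sum_abs _ _).trans ((sum_le_sum e4).trans ?_)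
    rw [← mul_sum]
    rw [div_lt_iff₀ hpos] at g2
    calc C0 * (1 / 4 : ℝ) ^ L * ∑ a ∈ S X, ∏ i, ((4 : ℝ) ^ ρ i a) ^ (c + 1) ≤
        C0 * (1 / 4 : ℝ) ^ L * ((E + 1) * ((S X).card : ℝ)) :=
          mul_le_mul_of_nonneg_left g2.le (by positivity)
      _ = _ := by ring
  rw [e1, Real.dist_eq] at g1
  rw [Real.dist_eq] at hL1 ⊢
  have g3 := abs_lt.1 g1
  have g4 := abs_le.1 e3
  have g5 := abs_lt.1 hL1
  rw [abs_lt]
  constructor <;> linarith [g3.1, g3.2, g4.1, g4.2, g5.1, g5.2]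

end Pool.Agent.Q269.JM
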