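import Pool.Agent.Q283.FS.Lm
import Pool.Agent.Q269.AV.Pw
import Pool.Agent.Q269.AV.Gau

/-!
# Parameters for the moments over the whole class
-/

set_option autoImplicit false
set_option linter.all false

open scoped Classical

namespace Pool.Agent.Q269.JM

open Finset Polynomial Filter Module
open Pool.Agent.H341R2.Sharp
open Pool.Agent.Y164.PS Q283.FS
open Pool.Agent.Y697.PQ (ij)

theorem er_le {K m R s c τ : ℕ}
    (hR : (16 : ℝ) ^ K * ((4 ^ K - 1) / 4 ^ K) ^ (R - 1) ≤ 1 / 2) (hR1 : 1 ≤ R)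
    (hm : R * s ≤ m) : ER K (m - s) (s + c) τ ≤
      (2 ^ (16 ^ K) * 4 ^ K * 2 ^ τ * (4 ^ c * 2 ^ τ) ^ (2 * K)) * (1 / 2) ^ s := by
  obtain ⟨R', rfl⟩ : ∃ R', R = R' + 1 := ⟨R - 1, by omega⟩
  rw [Nat.add_sub_cancel] at hR
  have h0 : (0 : ℝ) ≤ (4 : ℝ) ^ K - 1 := by
    have : (1 : ℝ) ≤ 4 ^ K := one_le_pow₀ (by norm_num)
    linarith
  have hρ : (0 : ℝ) ≤ (4 ^ K - 1) / 4 ^ K := div_nonneg h0 (by positivity)
  have h1 : ER K (m - s) (s + c) τ ≤ ER K (R' * s) (s + c) τ := ER_mono (by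
    rw [Nat.add_mul, one_mul] at hm
    omega) le_rfl
  refine h1.trans ?_
  unfold ER
  have e6 : ((4 : ℝ) ^ (s + c) * 2 ^ τ) ^ (2 * K) = (4 ^ c * 2 ^ τ) ^ (2 * K) * (16 ^ K) ^ s := by
    have e7 : ((16 : ℝ) ^ K) ^ s = (4 ^ s) ^ (2 * K) := by
      rw [← pow_mul, ← pow_mul, show (16 : ℝ) = 4 ^ 2 by norm_num, ← pow_mul]
      congr 1
      ring
    rw [e7, pow_add, ← mul_pow]
    ring
  rw [e6, pow_mul ((4 ^ K - 1) / 4 ^ K : ℝ) R' s]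
  have e8 : (2 : ℝ) ^ (16 ^ K) * 4 ^ K * 2 ^ τ * ((4 ^ c * 2 ^ τ) ^ (2 * K) * (16 ^ K) ^ s) *
      (((4 ^ K - 1) / 4 ^ K) ^ R') ^ s =
      (2 ^ (16 ^ K) * 4 ^ K * 2 ^ τ * (4 ^ c * 2 ^ τ) ^ (2 * K)) *
        (16 ^ K * ((4 ^ K - 1) / 4 ^ K) ^ R') ^ s := by
    rw [mul_pow (16 ^ K : ℝ)]
    ring
  rw [e8]
  exact mul_le_mul_of_nonneg_left (pow_le_pow_left₀ (by positivity) hR s) (by positivity)

variable {k : Type} [Field k] [Fintype k] [DecidableEq k]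
variable {a b : k[X]} {N : ℕ} {M : ℕ}

theorem et2_et (F : Fin M → Finset k[X]) (n z : ℕ) :
    et2 a b F n z ≤ (3 * (1 + (dM F : ℝ) + (PM F).card)) * Pool.Agent.Y164.SZ.et 2 (QQ a b) n z := by
  have e1 : Pool.Agent.Y164.SZ.dQ (QQ a b) = dQ a b := rfl
  unfold et2 Pool.Agent.Y164.SZ.et
  rw [mul_div_assoc', e1]
  refine div_le_div_of_nonneg_right ?_ (by positivity)
  push_cast
  have x0 : (0 : ℝ) ≤ n := Nat.cast_nonneg _
  have d0 : (0 : ℝ) ≤ dM F := Nat.cast_nonneg _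
  have p0 : (0 : ℝ) ≤ ((PM F).card : ℝ) := Nat.cast_nonneg _
  have y0 : (0 : ℝ) ≤ dQ a b := Nat.cast_nonneg _
  have t0 : (0 : ℝ) ≤ Fintype.card (Tau a b) := Nat.cast_nonneg _
  generalize (n : ℝ) = x at *
  generalize (dM F : ℝ) = d at *
  generalize ((PM F).card : ℝ) = p at *
  generalize (dQ a b : ℝ) = y at *
  generalize (Fintype.card (Tau a b) : ℝ) = t at *
  have h1 := mul_nonneg d0 x0
  have h2 := mul_nonneg d0 y0
  have h3 := mul_nonneg p0 x0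
  have h4 := mul_nonneg p0 y0
  have h5 := mul_nonneg x0 x0
  have h6 := mul_nonneg x0 t0
  have h7 := mul_nonneg d0 h5
  have h8 := mul_nonneg d0 h6
  have h9 := mul_nonneg p0 h5
  have h10 := mul_nonneg p0 h6
  nlinarith

/-- the choice of the parameters -/
theorem params (hk : ringChar k ≠ 2) (F : Fin M → Finset k[X]) (jj : Fin M → ℕ) (w0 : ℕ)
    (hw0 : 1 ≤ w0) (z0 : ℕ) {ε δ : ℝ} (hε : 0 < ε) (hδ : 0 < δ) :
    ∀ᶠ n : ℕ in atTop, ∃ t0 m1 s z : ℕ, 2 ≤ z ∧ z0 ≤ z ∧ (m1 : ℝ) * et2 a b F n z ≤ 1 / 2 ∧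
      (∀ m, t0 ≤ m → m ≤ m1 → Er a b F jj n z s m ≤ ε) ∧
      ∑ D ∈ (Sf k n).filter (fun D => ¬ typ t0 m1 s z D), (w0 : ℝ) ^ (pf D).card ≤
        δ * (Fintype.card k : ℝ) ^ n := by
  obtain ⟨K, hK⟩ : ∃ K, K = Fintype.card (Kx jj) := ⟨_, rfl⟩
  obtain ⟨τ, hτ⟩ : ∃ τ, τ = Fintype.card (Tau a b) := ⟨_, rfl⟩
  obtain ⟨c, hc⟩ : ∃ c, c = (PM F).card := ⟨_, rfl⟩
  have h0 : (0 : ℝ) ≤ (4 : ℝ) ^ K - 1 := by
    have : (1 : ℝ) ≤ 4 ^ K := one_le_pow₀ (by norm_num)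
    linarith
  have hρ : (0 : ℝ) ≤ (4 ^ K - 1) / 4 ^ K := div_nonneg h0 (by positivity)
  have hρ1 : ((4 : ℝ) ^ K - 1) / 4 ^ K < 1 := by
    rw [div_lt_one (by positivity)]
    linarith
  obtain ⟨R', hR'⟩ : ∃ R' : ℕ, (16 : ℝ) ^ K * ((4 ^ K - 1) / 4 ^ K) ^ R' ≤ 1 / 2 := by
    have h1 : Tendsto (fun R' : ℕ => (16 : ℝ) ^ K * ((4 ^ K - 1) / 4 ^ K) ^ R') atTop
        (nhds ((16 : ℝ) ^ K * 0)) :=
      (tendsto_pow_atTop_nhds_zero_of_lt_one hρ hρ1).const_mul _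
    rw [mul_zero] at h1
    exact (h1.eventually_le_const (show (0 : ℝ) < 1 / 2 by norm_num)).exists
  obtain ⟨C1, hC1⟩ : ∃ C1 : ℝ, C1 = ((CS jj).card + 1) *
    (2 ^ (16 ^ K) * 4 ^ K * 2 ^ τ * (4 ^ c * 2 ^ τ) ^ (2 * K)) := ⟨_, rfl⟩
  have hC10 : 0 ≤ C1 := by rw [hC1]; positivity
  obtain ⟨B, hB⟩ : ∃ B : ℝ, B = 3 * (1 + (dM F : ℝ) + (PM F).card) := ⟨_, rfl⟩
  have hB0 : 0 ≤ B := by rw [hB]; positivity
  obtain ⟨C2, hC2⟩ : ∃ C2 : ℝ, C2 = 2 * ((4 ^ c * 2 ^ τ) ^ K * 2 ^ τ * B) := ⟨_, rfl⟩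
  have hC20 : 0 ≤ C2 := by rw [hC2]; positivity
  obtain ⟨C, hC⟩ : ∃ C : ℝ, C = 2 / ε * C1 + 2 / ε * C2 + 2 * B + 2 ^ z0 := ⟨_, rfl⟩
  have g1 : 0 ≤ 2 / ε * C1 := by positivity
  have g2 : 0 ≤ 2 / ε * C2 := by positivity
  have g3 : (0 : ℝ) < 2 ^ z0 := by positivity
  have hCpos : 0 ≤ C := by rw [hC]; positivity
  have f1 : C1 ≤ ε / 2 * C := by
    have : ε / 2 * (2 / ε * C1) = C1 := by field_simp
    rw [← this]
    apply mul_le_mul_of_nonneg_left _ (by positivity)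
    rw [hC]
    linarith
  have f2 : C2 ≤ ε / 2 * C := by
    have : ε / 2 * (2 / ε * C2) = C2 := by field_simp
    rw [← this]
    apply mul_le_mul_of_nonneg_left _ (by positivity)
    rw [hC]
    linarith
  obtain ⟨A, hA⟩ := Pool.Agent.Q269.AV.params_w hk (QQ a b) 2
    (w := 4 ^ (K + 1)) (Nat.one_le_pow _ _ (by norm_num)) w0 hw0 (R' + 1) C hCpos δ hδ
  filter_upwards [hA] with n hn
  obtain ⟨l, s, z, hs, hz, hCs, het, hsum⟩ := hn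
  have e0 := Pool.Agent.Y261.SZ.et_nonneg (Q := QQ a b) 2 n z
  refine ⟨(R' + 1) * s, A * l, s, z, hz, ?_, ?_, ?_, hsum⟩
  · -- the masks
    have h1 := het 0 (Nat.zero_le _)
    rw [pow_zero, mul_one] at h1
    have h2 : (4 : ℝ) / 2 ^ z ≤ Pool.Agent.Y164.SZ.et 2 (QQ a b) n z := by
      unfold Pool.Agent.Y164.SZ.et
      refine div_le_div_of_nonneg_right ?_ (by positivity)
      have x1 : (0 : ℝ) ≤ ((2 * (n + Pool.Agent.Y164.SZ.dQ (QQ a b)) : ℕ) : ℝ) := Nat.cast_nonneg _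
      have x2 : (0 : ℝ) ≤ (n : ℝ) * (n + Fintype.card (Tau a b)) := by positivity
      linarith
    have h3 : (4 : ℝ) / 2 ^ z * 2 ^ z0 ≤ 1 := by
      refine le_trans (mul_le_mul h2 ?_ g3.le e0) h1
      rw [hC]
      linarith
    by_contra hlt
    push Not at hlt
    have h4 : (2 : ℝ) ^ z ≤ 2 ^ z0 := pow_le_pow_right₀ (by norm_num) hlt.le
    have h5 : (0 : ℝ) < 2 ^ z := by positivity
    rw [div_mul_eq_mul_div, div_le_one h5] at h3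
    linarith
  · have h1 := het (A * l) le_rfl
    have h2 : ((A * l : ℕ) : ℝ) ≤ ((4 ^ (K + 1) : ℕ) : ℝ) ^ (A * l) := by
      have h3 : A * l < (4 ^ (K + 1)) ^ (A * l) := Nat.lt_pow_self (by
        calc 1 < 4 := by norm_num
          _ = 4 ^ 1 := (pow_one _).symm
          _ ≤ 4 ^ (K + 1) := Nat.pow_le_pow_right (by norm_num) (by omega))
      exact_mod_cast h3.le
    have h3 := et2_et (a := a) (b := b) F n z
    rw [← hB] at h3
    have h4 : B ≤ 1 / 2 * C := by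
      rw [hC]
      linarith
    calc ((A * l : ℕ) : ℝ) * et2 a b F n z ≤ ((4 ^ (K + 1) : ℕ) : ℝ) ^ (A * l) *
        (B * Pool.Agent.Y164.SZ.et 2 (QQ a b) n z) :=
          mul_le_mul h2 h3 (et2_nonneg F n z) (by positivity)
      _ = B * (Pool.Agent.Y164.SZ.et 2 (QQ a b) n z * ((4 ^ (K + 1) : ℕ) : ℝ) ^ (A * l)) := by ring
      _ ≤ (1 / 2 * C) * (Pool.Agent.Y164.SZ.et 2 (QQ a b) n z * ((4 ^ (K + 1) : ℕ) : ℝ) ^ (A * l)) :=
          mul_le_mul_of_nonneg_right h4 (mul_nonneg e0 (by positivity))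
      _ = 1 / 2 * (Pool.Agent.Y164.SZ.et 2 (QQ a b) n z * (C * ((4 ^ (K + 1) : ℕ) : ℝ) ^ (A * l))) := by
          ring
      _ ≤ 1 / 2 * 1 := mul_le_mul_of_nonneg_left h1 (by norm_num)
      _ = 1 / 2 := mul_one _
  · intro m hm1 hm2
    have h1 := het m hm2
    have hsp : ε = ε / 2 + ε / 2 := by ring
    rw [hsp, Er, ← hK, ← hτ, ← hc]
    refine add_le_add ?_ ?_
    · have h2 := er_le (K := K) (m := m) (R := R' + 1) (s := s) (c := c) (τ := τ)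
        (by rw [Nat.add_sub_cancel]; exact hR') (by omega) hm1
      calc (((CS jj).card : ℝ) + 1) * ER K (m - s) (s + c) τ ≤ ((CS jj).card + 1) *
          ((2 ^ (16 ^ K) * 4 ^ K * 2 ^ τ * (4 ^ c * 2 ^ τ) ^ (2 * K)) * (1 / 2) ^ s) :=
            mul_le_mul_of_nonneg_left h2 (add_nonneg (Nat.cast_nonneg _) zero_le_one)
        _ = C1 * (1 / 2) ^ s := by rw [hC1]; ring
        _ ≤ (ε / 2 * C) * (1 / 2) ^ s := mul_le_mul_of_nonneg_right f1 (by positivity)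
        _ = ε / 2 * (C * (1 / 2) ^ s) := by ring
        _ ≤ ε / 2 * 1 := mul_le_mul_of_nonneg_left hCs (by positivity)
        _ = ε / 2 := mul_one _
    · have h2 := et2_et (a := a) (b := b) F n z
      rw [← hB] at h2
      have e3 : ((4 : ℝ) ^ (m + c) * 2 ^ τ) ^ K ≤
          (4 ^ c * 2 ^ τ) ^ K * ((4 ^ (K + 1) : ℕ) : ℝ) ^ m := by
        have e4 : ((4 : ℝ) ^ (m + c) * 2 ^ τ) ^ K = (4 ^ c * 2 ^ τ) ^ K * (4 ^ K) ^ m := by
          rw [← pow_mul, mul_comm K m, pow_mul, ← mul_pow, pow_add]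
          ring
        rw [e4]
        refine mul_le_mul_of_nonneg_left ?_ (by positivity)
        push_cast
        refine pow_le_pow_left₀ (by positivity) ?_ _
        exact pow_le_pow_right₀ (by norm_num) (by omega)
      calc 2 * (((4 : ℝ) ^ (m + c) * 2 ^ τ) ^ K * 2 ^ τ * et2 a b F n z) ≤
          2 * ((4 ^ c * 2 ^ τ) ^ K * ((4 ^ (K + 1) : ℕ) : ℝ) ^ m * 2 ^ τ *
            (B * Pool.Agent.Y164.SZ.et 2 (QQ a b) n z)) := by
            refine mul_le_mul_of_nonneg_left ?_ (by norm_num)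
            exact mul_le_mul (mul_le_mul_of_nonneg_right e3 (by positivity)) h2
              (et2_nonneg F n z) (by positivity)
        _ = C2 * (((4 ^ (K + 1) : ℕ) : ℝ) ^ m * Pool.Agent.Y164.SZ.et 2 (QQ a b) n z) := by
            rw [hC2]; ring
        _ ≤ (ε / 2 * C) * (((4 ^ (K + 1) : ℕ) : ℝ) ^ m * Pool.Agent.Y164.SZ.et 2 (QQ a b) n z) :=
            mul_le_mul_of_nonneg_right f2 (mul_nonneg (by positivity) e0)
        _ = ε / 2 * (Pool.Agent.Y164.SZ.et 2 (QQ a b) n z * (C * ((4 ^ (K + 1) : ℕ) : ℝ) ^ m)) := by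
            ring
        _ ≤ ε / 2 * 1 := mul_le_mul_of_nonneg_left h1 (by positivity)
        _ = ε / 2 := mul_one _

end Pool.Agent.Q269.JM
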